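import Mathlib

set_option autoImplicit false

open MvPolynomial

namespace Pool.Agent.Balls

theorem hc_mul {σ R : Type*} [CommSemiring R] (n m : ℕ) (p q : MvPolynomial σ R)
    (hq : q.IsHomogeneous m) :
    homogeneousComponent (n + m) (p * q) = homogeneousComponent n p * q := by
  conv_lhs => rw [← sum_homogeneousComponent (φ := p), Finset.sum_mul, map_sum]
  have h : ∀ i, homogeneousComponent (n + m) (homogeneousComponent i p * q) =
      if n = i then homogeneousComponent i p * q else 0 := by
    intro i
    have hi : (homogeneousComponent i p * q).IsHomogeneous (i + m) :=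
      (homogeneousComponent_isHomogeneous i p).mul hq
    rw [homogeneousComponent_of_mem hi]
    by_cases h : n = i
    · simp [h]
    · rw [if_neg h, if_neg (by omega)]
  simp_rw [h]
  rw [Finset.sum_ite_eq]
  by_cases hn : n ∈ Finset.range (p.totalDegree + 1)
  · rw [if_pos hn]
  · rw [if_neg hn, homogeneousComponent_eq_zero n p (by
      simp only [Finset.mem_range] at hn; omega), zero_mul]

/-- If three real forms of positive degrees have no common complex zero except the origin then
the common zeros of two of them on the affine quadric where the third is one are finitely many. -/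
theorem finite_of_no_common_zero (F G N : MvPolynomial (Fin 3) ℝ) (hF : F.IsHomogeneous 3)
    (hG : G.IsHomogeneous 4) (hN : N.IsHomogeneous 2)
    (h0 : ∀ z : Fin 3 → ℂ, aeval z F = 0 → aeval z G = 0 → aeval z N = 0 → z = 0) :
    {z : Fin 3 → ℝ | eval z F = 0 ∧ eval z G = 0 ∧ eval z N = 1}.Finite := by
  classical
  set V := {z : Fin 3 → ℝ | eval z F = 0 ∧ eval z G = 0 ∧ eval z N = 1} with hV
  -- Nullstellensatz
  have hrad : ∀ l : Fin 3, ∃ k : ℕ, (X l : MvPolynomial (Fin 3) ℝ) ^ k ∈ Ideal.span {F, G, N} := by
    intro l
    have h1 : (X l : MvPolynomial (Fin 3) ℝ) ∈ (Ideal.span {F, G, N}).radical := by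
      rw [← vanishingIdeal_zeroLocus_eq_radical (k := ℝ) (K := ℂ)]
      intro z hz
      have hz' : ∀ p ∈ Ideal.span {F, G, N}, aeval z p = 0 := hz
      have h2 : z = 0 := h0 z (hz' F (Ideal.subset_span (by simp)))
        (hz' G (Ideal.subset_span (by simp))) (hz' N (Ideal.subset_span (by simp)))
      rw [aeval_X, h2]
      rfl
    exact h1
  choose k hk using hrad
  obtain ⟨a, ha⟩ : ∃ a, a = k 0 + k 1 + k 2 + 4 := ⟨_, rfl⟩
  have hka : ∀ l, k l ≤ a := by
    intro l
    fin_cases l <;> simp <;> omega
  have hmem : ∀ l, (X l : MvPolynomial (Fin 3) ℝ) ^ a ∈ Ideal.span {F, G, N} := by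
    intro l
    have := Ideal.mul_mem_left _ ((X l : MvPolynomial (Fin 3) ℝ) ^ (a - k l)) (hk l)
    rwa [← pow_add, Nat.sub_add_cancel (hka l)] at this
  have hred : ∀ l, ∃ γ : MvPolynomial (Fin 3) ℝ, γ.totalDegree ≤ a - 2 ∧
      ∀ z ∈ V, z l ^ a = eval z γ := by
    intro l
    obtain ⟨α, q, hq, e⟩ := Ideal.mem_span_insert.1 (hmem l)
    obtain ⟨β, γ, e2⟩ := Ideal.mem_span_pair.1 hq
    have e3 : (X l : MvPolynomial (Fin 3) ℝ) ^ a = α * F + (β * G + γ * N) := by rw [e2, e]
    have e4 := congrArg (homogeneousComponent a) e3
    rw [homogeneousComponent_eq_self (isHomogeneous_X_pow l a), map_add, map_add] at e4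
    have e5 : homogeneousComponent a (α * F) = homogeneousComponent (a - 3) α * F := by
      rw [← hc_mul (a - 3) 3 α F hF, Nat.sub_add_cancel (by omega)]
    have e6 : homogeneousComponent a (β * G) = homogeneousComponent (a - 4) β * G := by
      rw [← hc_mul (a - 4) 4 β G hG, Nat.sub_add_cancel (by omega)]
    have e7 : homogeneousComponent a (γ * N) = homogeneousComponent (a - 2) γ * N := by
      rw [← hc_mul (a - 2) 2 γ N hN, Nat.sub_add_cancel (by omega)]
    rw [e5, e6, e7] at e4
    refine ⟨homogeneousComponent (a - 2) γ,
      (homogeneousComponent_isHomogeneous (a - 2) γ).totalDegree_le, ?_⟩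
    rintro z ⟨z1, z2, z3⟩
    have e8 := congrArg (eval z) e4
    simp only [map_pow, eval_X, map_add, map_mul, z1, z2, z3, mul_zero, zero_add, mul_one] at e8
    exact e8
  choose γ hγ1 hγ2 using hred
  -- the space of polynomial functions on V is finite dimensional
  let ev : MvPolynomial (Fin 3) ℝ →ₗ[ℝ] (V → ℝ) :=
    { toFun := fun p z => eval z.1 p
      map_add' := by intro p q; ext z; simp
      map_smul' := by intro c p; ext z; simp }
  have hev : ∀ p (z : V), ev p z = eval z.1 p := fun p z => rfl
  let W : Submodule ℝ (V → ℝ) := Submodule.span ℝ (Set.range fun e : Fin 3 → Fin a =>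
    ev (monomial (Finsupp.equivFunOnFinite.symm fun l => (e l : ℕ)) 1))
  have hW : ∀ n : ℕ, ∀ p : MvPolynomial (Fin 3) ℝ, p.totalDegree ≤ n → ev p ∈ W := by
    intro n
    induction n using Nat.strong_induction_on with
    | _ n ih =>
    intro p hp
    rw [p.as_sum, map_sum]
    refine Submodule.sum_mem _ ?_
    intro s hs
    have hsn : s.degree ≤ n := by
      have := le_totalDegree hs
      refine le_trans ?_ hp
      rw [Finsupp.degree]
      exact this
    by_cases hlt : ∀ l, s l < a
    · have : monomial s (coeff s p) = coeff s p • monomial s (1 : ℝ) := by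
        rw [smul_monomial, smul_eq_mul, mul_one]
      rw [this, map_smul]
      have hs' : Finsupp.equivFunOnFinite.symm (fun l => (((⟨s l, hlt l⟩ : Fin a)) : ℕ)) = s := by
        ext l
        simp
      refine Submodule.smul_mem _ _ (Submodule.subset_span ⟨fun l => ⟨s l, hlt l⟩, ?_⟩)
      simp only [hs']
    · push Not at hlt
      obtain ⟨l, hl⟩ := hlt
      set c := coeff s p
      have e0 : s = (s - Finsupp.single l a) + Finsupp.single l a := by
        ext i
        by_cases hi : i = l
        · subst hi; simp; omega
        · simp [Finsupp.single_apply, Ne.symm hi]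
      have e1 : monomial s c = X l ^ a * monomial (s - Finsupp.single l a) c := by
        rw [X_pow_eq_monomial, monomial_mul, one_mul, add_comm (Finsupp.single l a), ← e0]
      have hdeg : (s - Finsupp.single l a).degree + a = s.degree := by
        conv_rhs => rw [e0]
        rw [map_add, Finsupp.degree_single]
      have e2 : ev (monomial s c) = ev (γ l * monomial (s - Finsupp.single l a) c) := by
        funext z
        rw [e1, hev, hev, map_mul, map_mul, map_pow, eval_X, hγ2 l z.1 z.2]
      rw [e2]
      refine ih (n - 1) (by omega) _ ?_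
      refine (totalDegree_mul _ _).trans ?_
      have h3 : (monomial (s - Finsupp.single l a) c).totalDegree ≤
          (s - Finsupp.single l a).degree := totalDegree_monomial_le (s - Finsupp.single l a) c
      have h5 := hγ1 l
      omega
  have : FiniteDimensional ℝ W := by
    apply FiniteDimensional.span_of_finite
    exact Set.finite_range _
  -- each coordinate takes finitely many values
  have hcoord : ∀ l : Fin 3, ((fun z : Fin 3 → ℝ => z l) '' V).Finite := by
    intro l
    let Φ : Polynomial ℝ →ₗ[ℝ] W :=
      { toFun := fun q => ⟨fun z => q.eval (z.1 l), by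
          have : (fun z : V => q.eval (z.1 l)) = ev (Polynomial.aeval (X l) q) := by
            funext z
            rw [hev, Polynomial.aeval_def, Polynomial.eval₂_eq_sum_range, map_sum,
              Polynomial.eval_eq_sum_range]
            refine Finset.sum_congr rfl fun i _ => ?_
            simp
          rw [this]
          exact hW _ _ le_rfl⟩
        map_add' := by intro p q; ext z; simp
        map_smul' := by intro c p; ext z; simp }
    have hni : ¬ Function.Injective Φ := by
      intro hinj
      have : FiniteDimensional ℝ (Polynomial ℝ) := FiniteDimensional.of_injective Φ hinj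
      exact Polynomial.not_finite this
    rw [← LinearMap.ker_eq_bot, Submodule.eq_bot_iff] at hni
    push Not at hni
    obtain ⟨q, hq, hq0⟩ := hni
    refine (q.roots.toFinset.finite_toSet).subset ?_
    rintro _ ⟨z, hz, rfl⟩
    have h1 : Φ q = 0 := hq
    have h2 := congrFun (congrArg Subtype.val h1) ⟨z, hz⟩
    simp only [Finset.mem_coe, Multiset.mem_toFinset]
    rw [Polynomial.mem_roots hq0]
    exact h2
  have hpi : (Set.pi Set.univ fun l : Fin 3 => (fun z : Fin 3 → ℝ => z l) '' V).Finite :=
    Set.Finite.pi hcoord
  exact hpi.subset fun z hz l _ => ⟨z, hz, rfl⟩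

end Pool.Agent.Balls
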