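import Pool.Agent.Balls.Geom
import Pool.Agent.Balls.PM

set_option autoImplicit false

open Set Filter Topology
open scoped RealInnerProductSpace

namespace Pool.Agent.Balls

/-- distance between the vertical axis and the lines of the family -/
noncomputable def rho (φ g : ℝ) : ℝ := Real.sqrt (1 - g ^ 2 * Real.sin φ ^ 2 / 4)

/-- base point -/
noncomputable def pt (θ φ h g : ℝ) : E3 := !₂[rho φ g * Real.cos θ, rho φ g * Real.sin θ, h]

/-- direction -/
noncomputable def dr (θ φ : ℝ) : E3 :=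
  !₂[-(Real.sin φ * Real.sin θ), Real.sin φ * Real.cos θ, Real.cos φ]

/-- squared distance from `C` to the line of the family with parameters `θ, φ, h, g` -/
noncomputable def QQ (C : E3) (θ φ h g : ℝ) : ℝ :=
  (C 0 * Real.cos θ + C 1 * Real.sin θ - rho φ g) ^ 2 +
    ((-C 0 * Real.sin θ + C 1 * Real.cos θ) * Real.cos φ - (C 2 - h) * Real.sin φ) ^ 2

theorem norm_dr (θ φ : ℝ) : ‖dr θ φ‖ = 1 := by
  have h : ‖dr θ φ‖ ^ 2 = 1 := by
    rw [EuclideanSpace.real_norm_sq_eq, Fin.sum_univ_three]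
    simp only [dr, PiLp.toLp_apply, Matrix.cons_val_zero, Matrix.cons_val_one, Matrix.cons_val]
    linear_combination (Real.sin φ ^ 2) * (Real.sin_sq_add_cos_sq θ) + Real.sin_sq_add_cos_sq φ
  have h0 := norm_nonneg (dr θ φ)
  nlinarith

theorem dist_formula (C : E3) (θ φ h g : ℝ) :
    ‖C - pt θ φ h g‖ ^ 2 - ⟪C - pt θ φ h g, dr θ φ⟫ ^ 2 = QQ C θ φ h g := by
  rw [EuclideanSpace.real_norm_sq_eq, Fin.sum_univ_three, PiLp.inner_apply, Fin.sum_univ_three]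
  simp only [PiLp.sub_apply, pt, dr, QQ, PiLp.toLp_apply, Matrix.cons_val_zero,
    Matrix.cons_val_one, Matrix.cons_val, RCLike.inner_apply, conj_trivial]
  linear_combination (rho φ g ^ 2 - C 0 ^ 2 - C 1 ^ 2) * (Real.sin_sq_add_cos_sq θ)
    - ((C 2 - h) ^ 2 + (-C 0 * Real.sin θ + C 1 * Real.cos θ) ^ 2) * (Real.sin_sq_add_cos_sq φ)

theorem QQ_cont : Continuous fun p : E3 × ℝ × ℝ × ℝ × ℝ => QQ p.1 p.2.1 p.2.2.1 p.2.2.2.1 p.2.2.2.2
    := by
  unfold QQ rho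
  fun_prop

/-- nominal far balls -/
noncomputable def FF (h0 ψ : ℝ) : E3 := !₂[h0, Real.sin ψ, Real.cos ψ]

/-- nominal side balls -/
noncomputable def RR (D ψ : ℝ) : E3 := !₂[D * Real.cos ψ, D * Real.sin ψ, 0]

theorem rho_zero (φ : ℝ) : rho φ 0 = 1 := by simp [rho]

theorem QQ_FF (h0 ψ φ : ℝ) : QQ (FF h0 ψ) 0 φ 0 0 = (1 - h0) ^ 2 + Real.sin (ψ - φ) ^ 2 := by
  simp only [QQ, FF, rho_zero, PiLp.toLp_apply, Matrix.cons_val_zero, Matrix.cons_val_one,
    Matrix.cons_val, Real.cos_zero, Real.sin_zero, Real.sin_sub]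
  ring

theorem QQ_RR (D ψ θ φ : ℝ) : QQ (RR D ψ) θ φ 0 0 =
    (D * Real.cos (ψ - θ) - 1) ^ 2 + (D * Real.sin (ψ - θ) * Real.cos φ) ^ 2 := by
  simp only [QQ, RR, rho_zero, PiLp.toLp_apply, Matrix.cons_val_zero, Matrix.cons_val_one,
    Matrix.cons_val, Real.sin_sub, Real.cos_sub]
  ring

theorem sin_sq_mono {x y : ℝ} (hx : 0 ≤ x) (hxy : x ≤ |y|) (hy : |y| ≤ 1) :
    Real.sin x ^ 2 ≤ Real.sin y ^ 2 := by
  have h1 : Real.sin y ^ 2 = Real.sin |y| ^ 2 := by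
    rcases abs_cases y with ⟨h, _⟩ | ⟨h, _⟩ <;> rw [h]
    rw [Real.sin_neg]; ring
  rw [h1]
  have hpi := Real.pi_gt_three
  have h2 : Real.sin x ≤ Real.sin |y| :=
    Real.sin_le_sin_of_le_of_le_pi_div_two (by linarith) (by linarith) hxy
  have h3 : 0 ≤ Real.sin x := Real.sin_nonneg_of_nonneg_of_le_pi hx (by linarith)
  nlinarith

theorem sin_half_sq {φ : ℝ} (h0 : 0 ≤ φ) (h1 : φ ≤ 1 / 2) : Real.sin φ ^ 2 ≤ 1 / 4 := by
  have h2 : Real.sin φ ≤ φ := Real.sin_le h0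
  have hpi := Real.pi_gt_three
  have h3 : 0 ≤ Real.sin φ := Real.sin_nonneg_of_nonneg_of_le_pi h0 (by linarith)
  nlinarith

/-- the side ball does not meet lines away from it -/
theorem RR_free {E s α φ : ℝ} (hE0 : 0 ≤ E) (hE1 : E ≤ 1) (hs : Real.sin α ^ 2 = s)
    (hEs : 2 * E < s) (hφ0 : 0 ≤ φ) (hφ1 : φ ≤ 1 / 2) :
    1 < ((2 - E) * Real.cos α - 1) ^ 2 + ((2 - E) * Real.sin α * Real.cos φ) ^ 2 := by
  have hS := sin_half_sq hφ0 hφ1
  have h1 := Real.sin_sq_add_cos_sq α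
  have h2 := Real.sin_sq_add_cos_sq φ
  have hc : 2 * Real.cos α ≤ 2 - s := by
    have h3 : Real.cos α ^ 2 = 1 - s := by linarith
    have h4 : s ≤ 1 := by nlinarith [sq_nonneg (Real.cos α)]
    by_contra hcon
    push Not at hcon
    nlinarith
  have hs0 : 0 ≤ s := by rw [← hs]; positivity
  have h5 : 2 * Real.cos α < (2 - E) * (1 - Real.sin φ ^ 2 * s) := by
    nlinarith [mul_nonneg hE0 (mul_nonneg (sq_nonneg (Real.sin φ)) hs0),
      mul_le_mul_of_nonneg_right hS hs0]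
  have h6 : ((2 - E) * Real.cos α - 1) ^ 2 + ((2 - E) * Real.sin α * Real.cos φ) ^ 2 - 1 =
      (2 - E) * ((2 - E) * (1 - Real.sin φ ^ 2 * s) - 2 * Real.cos α) := by
    have h7 : Real.cos φ ^ 2 = 1 - Real.sin φ ^ 2 := by linarith
    have h8 : Real.cos α ^ 2 = 1 - s := by linarith
    have : ((2 - E) * Real.sin α * Real.cos φ) ^ 2 =
        (2 - E) ^ 2 * s * (1 - Real.sin φ ^ 2) := by
      rw [← h7, ← hs]; ring
    rw [this]
    have : ((2 - E) * Real.cos α - 1) ^ 2 = (2 - E) ^ 2 * (1 - s) - 2 * (2 - E) * Real.cos α + 1 := by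
      rw [← h8]; ring
    rw [this]
    ring
  have h9 : 0 < (2 - E) * ((2 - E) * (1 - Real.sin φ ^ 2 * s) - 2 * Real.cos α) := by
    apply mul_pos
    · linarith
    · linarith
  linarith

theorem ev_gt {X Y : Type*} [TopologicalSpace X] [TopologicalSpace Y] {K : Set Y}
    (hK : IsCompact K) {f : X → Y → ℝ} (hf : Continuous fun p : X × Y => f p.1 p.2) (x0 : X)
    (a : ℝ) (h : ∀ y ∈ K, a < f x0 y) : ∀ᶠ x in 𝓝 x0, ∀ y ∈ K, a < f x y :=
  hK.eventually_forall_of_forall_eventually fun y hy =>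
    (hf.continuousAt (x := (x0, y))).eventually (lt_mem_nhds (h y hy))

theorem ev_lt {X Y : Type*} [TopologicalSpace X] [TopologicalSpace Y] {K : Set Y}
    (hK : IsCompact K) {f : X → Y → ℝ} (hf : Continuous fun p : X × Y => f p.1 p.2) (x0 : X)
    (a : ℝ) (h : ∀ y ∈ K, f x0 y < a) : ∀ᶠ x in 𝓝 x0, ∀ y ∈ K, f x y < a :=
  hK.eventually_forall_of_forall_eventually fun y hy =>
    (hf.continuousAt (x := (x0, y))).eventually (gt_mem_nhds (h y hy))

theorem exists_radius {P : ℕ → ℝ → Prop} (m : ℕ)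
    (h : ∀ k < m, ∃ r > 0, ∀ r' > 0, r' ≤ r → P k r') : ∃ r > 0, ∀ k < m, P k r := by
  have h1 : ∀ k ∈ Finset.range m, ∀ᶠ r in 𝓝[>] (0 : ℝ), P k r := by
    intro k hk
    obtain ⟨r, hr, hP⟩ := h k (Finset.mem_range.1 hk)
    filter_upwards [Ioc_mem_nhdsGT hr] with r' hr'
    exact hP r' hr'.1 hr'.2
  have h2 := (Filter.eventually_all_finset (Finset.range m)).2 h1
  have h3 : ∀ᶠ r in 𝓝[>] (0 : ℝ), 0 < r := self_mem_nhdsWithin
  obtain ⟨r, hr1, hr2⟩ := (h2.and h3).exists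
  exact ⟨r, hr2, fun k hk => hr1 k (Finset.mem_range.2 hk)⟩

/-- the angles of the far balls -/
noncomputable def phk (m k : ℕ) : ℝ := 1 / 4 + k / (4 * m)

/-- half of the spacing of these angles -/
noncomputable def bet (m : ℕ) : ℝ := 1 / (8 * m)

theorem phk_mem {m k : ℕ} (hk : k < m) : 1 / 4 ≤ phk m k ∧ phk m k + bet m ≤ 1 / 2 := by
  have hm : (0 : ℝ) < m := by exact_mod_cast (by omega : 0 < m)
  have hk' : (k : ℝ) + 1 ≤ m := by exact_mod_cast hk
  constructor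
  · unfold phk
    have : (0 : ℝ) ≤ k / (4 * m) := by positivity
    linarith
  · unfold phk bet
    have : 1 / 4 + (k : ℝ) / (4 * m) + 1 / (8 * m) = 1 / 4 + (2 * k + 1) / (8 * m) := by
      field_simp; ring
    rw [this]
    have : (2 * (k : ℝ) + 1) / (8 * m) ≤ 1 / 4 := by
      rw [div_le_div_iff₀ (by positivity) (by norm_num)]
      linarith
    linarith

theorem bet_pos {m : ℕ} (hm : 0 < m) : 0 < bet m := by
  have hm : (0 : ℝ) < m := by exact_mod_cast hm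
  unfold bet
  positivity

theorem bet_le {m : ℕ} (hm : 0 < m) : bet m ≤ 1 / 8 := by
  have hm : (1 : ℝ) ≤ m := by exact_mod_cast hm
  unfold bet
  rw [div_le_div_iff₀ (by positivity) (by norm_num)]
  linarith

theorem far (m : ℕ) (hm : 0 < m) : ∃ h0 : ℝ, ∃ r > 0, ∀ k < m, ∀ (C : E3) (θ h g : ℝ),
    dist C (FF h0 (phk m k)) < r → |θ| < r → |h| < r → |g| < r →
    QQ C θ (phk m k) h g < 1 ∧
      ∀ φ ∈ Icc (1 / 4 : ℝ) (1 / 2), bet m ≤ |phk m k - φ| → 1 < QQ C θ φ h g := by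
  have hb := bet_pos hm
  have hb8 := bet_le hm
  have hpi := Real.pi_gt_three
  have hsin : 0 < Real.sin (bet m) := Real.sin_pos_of_pos_of_lt_pi hb (by linarith)
  obtain ⟨h0, hh0, hh1⟩ : ∃ h0 : ℝ, 0 < h0 ∧ h0 < 1 ∧ 1 - Real.sin (bet m) ^ 2 < (1 - h0) ^ 2 := by
    refine ⟨Real.sin (bet m) ^ 2 / 4, by positivity, ?_, ?_⟩
    · have := Real.sin_sq_le_one (bet m)
      linarith
    · have h2 : 0 < Real.sin (bet m) ^ 2 := by positivity
      nlinarith
  refine ⟨h0, ?_⟩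
  have key := exists_radius (P := fun k r => ∀ (C : E3) (θ h g : ℝ),
    dist C (FF h0 (phk m k)) < r → |θ| < r → |h| < r → |g| < r →
    QQ C θ (phk m k) h g < 1 ∧
      ∀ φ ∈ Icc (1 / 4 : ℝ) (1 / 2), bet m ≤ |phk m k - φ| → 1 < QQ C θ φ h g) m ?_
  · exact key
  · intro k hk
    obtain ⟨hk1, hk2⟩ := phk_mem hk
    set K : Set ℝ := {φ | φ ∈ Icc (1 / 4 : ℝ) (1 / 2) ∧ bet m ≤ |phk m k - φ|} with hKdef
    have hK : IsCompact K := by
      have : K = Icc (1 / 4 : ℝ) (1 / 2) ∩ {φ | bet m ≤ |phk m k - φ|} := rfl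
      rw [this]
      exact isCompact_Icc.inter_right (isClosed_le continuous_const (by fun_prop))
    have hcont : Continuous fun p : (E3 × ℝ × ℝ × ℝ) × ℝ =>
        QQ p.1.1 p.1.2.1 p.2 p.1.2.2.1 p.1.2.2.2 :=
      QQ_cont.comp (by fun_prop :
        Continuous fun p : (E3 × ℝ × ℝ × ℝ) × ℝ => (p.1.1, p.1.2.1, p.2, p.1.2.2.1, p.1.2.2.2))
    have e1 := ev_gt (X := E3 × ℝ × ℝ × ℝ) (Y := ℝ) hK
      (f := fun x φ => QQ x.1 x.2.1 φ x.2.2.1 x.2.2.2) hcont
      (FF h0 (phk m k), 0, 0, 0) 1 (by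
        rintro φ ⟨hφ, hφ2⟩
        simp only
        rw [QQ_FF]
        have h3 := sin_sq_mono (y := phk m k - φ) hb.le hφ2 (by
          rw [abs_le]
          obtain ⟨hφ3, hφ4⟩ := hφ
          constructor <;> linarith)
        linarith [hh1.2])
    have e2 := ev_lt (X := E3 × ℝ × ℝ × ℝ) (Y := ℝ) (isCompact_singleton (x := phk m k))
      (f := fun x φ => QQ x.1 x.2.1 φ x.2.2.1 x.2.2.2) hcont
      (FF h0 (phk m k), 0, 0, 0) 1 (by
        rintro φ rfl
        simp only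
        rw [QQ_FF, sub_self, Real.sin_zero]
        nlinarith [hh1.1])
    obtain ⟨r, hr, hball⟩ := Metric.eventually_nhds_iff_ball.1 (e1.and e2)
    refine ⟨r, hr, ?_⟩
    intro r' hr' hrr C θ h g hC hθ hh hg
    have hmem : (C, θ, h, g) ∈ Metric.ball (FF h0 (phk m k), (0 : ℝ), (0 : ℝ), (0 : ℝ)) r := by
      rw [Metric.mem_ball, Prod.dist_eq, Prod.dist_eq, Prod.dist_eq]
      simp only [Real.dist_eq, sub_zero, max_lt_iff]
      exact ⟨by linarith, by linarith, by linarith, by linarith⟩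
    obtain ⟨g1, g2⟩ := hball _ hmem
    exact ⟨g2 _ rfl, fun φ hφ hφ2 => g1 φ ⟨hφ, hφ2⟩⟩

theorem side (m : ℕ) (hm : 0 < m) (δ : ℝ) (hδ : 0 < δ) (hδ1 : δ ≤ 1) :
    ∃ D : ℝ, ∃ r > 0, ∀ j < m, ∀ (C : E3) (h g : ℝ),
    dist C (RR D (δ * j / m)) < r → |h| < r → |g| < r →
    (∀ φ ∈ Icc (1 / 4 : ℝ) (1 / 2), QQ C (δ * j / m) φ h g < 1) ∧
      ∀ θ ∈ Icc 0 δ, δ / (2 * m) ≤ |δ * j / m - θ| → ∀ φ ∈ Icc (1 / 4 : ℝ) (1 / 2),
        1 < QQ C θ φ h g := by
  have hm0 : (0 : ℝ) < m := by exact_mod_cast hm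
  have hm1 : (1 : ℝ) ≤ m := by exact_mod_cast hm
  have hpi := Real.pi_gt_three
  set α := δ / (2 * m) with hα
  have hα0 : 0 < α := by positivity
  have hα1 : α ≤ 1 := by
    rw [hα, div_le_one (by positivity)]; linarith
  have hsin : 0 < Real.sin α := Real.sin_pos_of_pos_of_lt_pi hα0 (by linarith)
  set E := Real.sin α ^ 2 / 4 with hE
  have hE0 : 0 < E := by positivity
  have hE1 : E ≤ 1 / 4 := by
    have := Real.sin_sq_le_one α
    linarith
  refine ⟨2 - E, ?_⟩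
  have key := exists_radius (P := fun j r => ∀ (C : E3) (h g : ℝ),
    dist C (RR (2 - E) (δ * j / m)) < r → |h| < r → |g| < r →
    (∀ φ ∈ Icc (1 / 4 : ℝ) (1 / 2), QQ C (δ * j / m) φ h g < 1) ∧
      ∀ θ ∈ Icc 0 δ, α ≤ |δ * j / m - θ| → ∀ φ ∈ Icc (1 / 4 : ℝ) (1 / 2),
        1 < QQ C θ φ h g) m ?_
  · exact key
  · intro j hj
    have hj' : (j : ℝ) + 1 ≤ m := by exact_mod_cast hj
    have hθj0 : 0 ≤ δ * j / m := by positivity
    have hθj1 : δ * j / m ≤ δ := by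
      rw [div_le_iff₀ hm0]
      nlinarith
    set K : Set (ℝ × ℝ) := {q | (q.1 ∈ Icc 0 δ ∧ q.2 ∈ Icc (1 / 4 : ℝ) (1 / 2)) ∧
      α ≤ |δ * j / m - q.1|} with hKdef
    have hK : IsCompact K := by
      have : K = (Icc 0 δ ×ˢ Icc (1 / 4 : ℝ) (1 / 2)) ∩ {q | α ≤ |δ * j / m - q.1|} := rfl
      rw [this]
      exact (isCompact_Icc.prod isCompact_Icc).inter_right
        (isClosed_le continuous_const (by fun_prop))
    have hcont : Continuous fun p : (E3 × ℝ × ℝ) × (ℝ × ℝ) =>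
        QQ p.1.1 p.2.1 p.2.2 p.1.2.1 p.1.2.2 :=
      QQ_cont.comp (by fun_prop :
        Continuous fun p : (E3 × ℝ × ℝ) × (ℝ × ℝ) => (p.1.1, p.2.1, p.2.2, p.1.2.1, p.1.2.2))
    have e1 := ev_gt (X := E3 × ℝ × ℝ) (Y := ℝ × ℝ) hK
      (f := fun x q => QQ x.1 q.1 q.2 x.2.1 x.2.2) hcont
      (RR (2 - E) (δ * j / m), 0, 0) 1 (by
        rintro ⟨θ, φ⟩ ⟨⟨⟨hθ0, hθ1⟩, hφ0, hφ1⟩, hθ2⟩
        simp only at hθ0 hθ1 hφ0 hφ1 hθ2 ⊢
        rw [QQ_RR]
        have h3 := sin_sq_mono (y := δ * j / m - θ) hα0.le hθ2 (by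
          rw [abs_le]
          constructor <;> linarith)
        refine RR_free hE0.le (by linarith) rfl ?_ (by linarith) hφ1
        have : 0 < Real.sin α ^ 2 := by positivity
        rw [hE]
        linarith)
    have e2 := ev_lt (X := E3 × ℝ × ℝ) (Y := ℝ × ℝ)
      ((isCompact_singleton (x := δ * j / m)).prod (isCompact_Icc (a := (1 / 4 : ℝ)) (b := 1 / 2)))
      (f := fun x q => QQ x.1 q.1 q.2 x.2.1 x.2.2) hcont
      (RR (2 - E) (δ * j / m), 0, 0) 1 (by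
        rintro ⟨θ, φ⟩ ⟨hθ, hφ⟩
        simp only [mem_singleton_iff] at hθ
        subst hθ
        simp only
        rw [QQ_RR, sub_self, Real.sin_zero, Real.cos_zero]
        nlinarith)
    obtain ⟨r, hr, hball⟩ := Metric.eventually_nhds_iff_ball.1 (e1.and e2)
    refine ⟨r, hr, ?_⟩
    intro r' hr' hrr C h g hC hh hg
    have hmem : (C, h, g) ∈ Metric.ball (RR (2 - E) (δ * j / m), (0 : ℝ), (0 : ℝ)) r := by
      rw [Metric.mem_ball, Prod.dist_eq, Prod.dist_eq]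
      simp only [Real.dist_eq, sub_zero, max_lt_iff]
      exact ⟨by linarith, by linarith, by linarith⟩
    obtain ⟨g1, g2⟩ := hball _ hmem
    refine ⟨fun φ hφ => g2 (δ * j / m, φ) ⟨rfl, hφ⟩, fun θ hθ hθ2 φ hφ => ?_⟩
    exact g1 (θ, φ) ⟨⟨hθ, hφ⟩, hθ2⟩

/-- centres of the stack -/
noncomputable def AA (η : ℝ) (l : ℕ) : E3 := !₂[0, 0, η * l]

theorem QQ_AA (η : ℝ) (hη : |η| ≤ 1) (i l : ℕ) (θ φ : ℝ) :
    QQ (AA η l) θ φ (η * (i + 1 / 2)) η =
      1 + Real.sin φ ^ 2 * η ^ 2 * (((l : ℝ) - i) * (l - i - 1)) := by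
  have h1 : rho φ η ^ 2 = 1 - η ^ 2 * Real.sin φ ^ 2 / 4 := by
    rw [rho, Real.sq_sqrt]
    have h2 : η ^ 2 ≤ 1 := by
      rw [← sq_abs]; nlinarith [abs_nonneg η]
    have h3 := Real.sin_sq_le_one φ
    nlinarith [sq_nonneg η, sq_nonneg (Real.sin φ)]
  simp only [QQ, AA, PiLp.toLp_apply, Matrix.cons_val_zero, Matrix.cons_val_one,
    Matrix.cons_val]
  linear_combination h1

/-- The family of lines. -/
theorem exists_lines (a m : ℕ) (hm : 0 < m) : ∃ η : ℝ, 0 < η ∧ ∃ UR UF : ℕ → Set E3,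
    (∀ j, IsOpen (UR j)) ∧ (∀ j, (UR j).Nonempty) ∧ (∀ j, IsOpen (UF j)) ∧
    (∀ j, (UF j).Nonempty) ∧
    ∀ R F : ℕ → E3, (∀ j < m, R j ∈ UR j) → (∀ j < m, F j ∈ UF j) →
    ∀ i < a, ∀ j < m, ∀ k < m, ∃ L : Set E3, IsLine L ∧
      (∀ l, (l = i ∨ l = i + 1) → Metric.infDist (AA η l) L = 1) ∧
      (∀ l, ¬ (l = i ∨ l = i + 1) → 1 < Metric.infDist (AA η l) L) ∧
      Metric.infDist (R j) L = 1 ∧ (∀ j' < m, j' ≠ j → 1 < Metric.infDist (R j') L) ∧
      Metric.infDist (F k) L = 1 ∧ (∀ k' < m, k' ≠ k → 1 < Metric.infDist (F k') L) := by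
  have hm0 : (0 : ℝ) < m := by exact_mod_cast hm
  obtain ⟨h0, r1, hr1, H1⟩ := far m hm
  obtain ⟨δ, hδ0, hδ1, hδr⟩ : ∃ δ : ℝ, 0 < δ ∧ δ ≤ 1 ∧ δ < r1 :=
    ⟨min 1 (r1 / 2), by positivity, min_le_left _ _, by
      have := min_le_right (1 : ℝ) (r1 / 2); linarith⟩
  obtain ⟨D, r2, hr2, H2⟩ := side m hm δ hδ0 hδ1
  obtain ⟨r, hr0, hrr1, hrr2, hr11⟩ : ∃ r : ℝ, 0 < r ∧ r ≤ r1 ∧ r ≤ r2 ∧ r ≤ 1 :=
    ⟨min r1 (min r2 1), by positivity, min_le_left _ _,
      (min_le_right _ _).trans (min_le_left _ _), (min_le_right _ _).trans (min_le_right _ _)⟩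
  set η := r / (a + 2) with hη
  have hη0 : 0 < η := by positivity
  have hηr : η * (a + 2) = r := by
    rw [hη]; field_simp
  have ha0 : (0 : ℝ) ≤ a := by positivity
  have hη1 : η < r := by nlinarith
  refine ⟨η, hη0, fun j => Metric.ball (RR D (δ * j / m)) r, fun k => Metric.ball (FF h0 (phk m k)) r,
    fun j => Metric.isOpen_ball, fun j => ⟨_, Metric.mem_ball_self hr0⟩,
    fun j => Metric.isOpen_ball, fun j => ⟨_, Metric.mem_ball_self hr0⟩, ?_⟩
  intro R F hR hF i hi j hj k hk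
  have hi' : (i : ℝ) + 1 ≤ a := by exact_mod_cast hi
  have hi0 : (0 : ℝ) ≤ i := by positivity
  set h := η * (i + 1 / 2) with hh
  have hhr : |h| < r := by
    rw [abs_of_pos (by positivity)]
    nlinarith
  have hgr : |η| < r := by rwa [abs_of_pos hη0]
  have HR : ∀ j' < m, (∀ φ ∈ Icc (1 / 4 : ℝ) (1 / 2), QQ (R j') (δ * j' / m) φ h η < 1) ∧
      ∀ θ ∈ Icc 0 δ, δ / (2 * m) ≤ |δ * j' / m - θ| → ∀ φ ∈ Icc (1 / 4 : ℝ) (1 / 2),
        1 < QQ (R j') θ φ h η := by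
    intro j' hj'
    have := hR j' hj'
    rw [Metric.mem_ball] at this
    exact H2 j' hj' (R j') h η (by linarith) (by linarith) (by linarith)
  have HF : ∀ k' < m, ∀ θ ∈ Icc 0 δ, QQ (F k') θ (phk m k') h η < 1 ∧
      ∀ φ ∈ Icc (1 / 4 : ℝ) (1 / 2), bet m ≤ |phk m k' - φ| → 1 < QQ (F k') θ φ h η := by
    intro k' hk' θ hθ
    have := hF k' hk'
    rw [Metric.mem_ball] at this
    have hθ' : |θ| < r1 := by
      rw [abs_of_nonneg hθ.1]; linarith [hθ.2]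
    exact H1 k' hk' (F k') θ h η (by linarith) hθ' (by linarith) (by linarith)
  set θj := δ * j / m with hθj
  set α := δ / (2 * m) with hα
  have hα0 : 0 < α := by positivity
  have hj' : (j : ℝ) + 1 ≤ m := by exact_mod_cast hj
  have hθj0 : 0 ≤ θj := by positivity
  have hθj1 : θj + α ≤ δ := by
    rw [hθj, hα]
    have : δ * j / m + δ / (2 * m) = δ * ((2 * j + 1) / (2 * m)) := by field_simp
    rw [this]
    have : (2 * (j : ℝ) + 1) / (2 * m) ≤ 1 := by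
      rw [div_le_one (by positivity)]; linarith
    nlinarith
  obtain ⟨hφ1, hφ2⟩ := phk_mem hk
  have hb := bet_pos hm
  have hcont : ∀ C : E3, Continuous fun p : ℝ × ℝ => QQ C p.1 p.2 h η := fun C =>
    QQ_cont.comp (by fun_prop : Continuous fun p : ℝ × ℝ => (C, p.1, p.2, h, η))
  obtain ⟨θ, hθ, φ, hφ, e1, e2⟩ := PM.poincare_miranda θj (θj + α) (phk m k) (phk m k + bet m)
    (by linarith) (by linarith) (fun p => QQ (F k) p.1 p.2 h η - 1)
    (fun p => QQ (R j) p.1 p.2 h η - 1)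
    ((hcont _).sub continuous_const).continuousOn ((hcont _).sub continuous_const).continuousOn
    (by
      intro φ hφ
      have := (HR j hj).1 φ ⟨by linarith [hφ.1], by linarith [hφ.2]⟩
      simp only
      linarith)
    (by
      intro φ hφ
      have := (HR j hj).2 (θj + α) ⟨by linarith, hθj1⟩ (by
        rw [show δ * j / m - (θj + α) = -α by rw [← hθj]; ring, abs_neg, abs_of_pos hα0]) φ
        ⟨by linarith [hφ.1], by linarith [hφ.2]⟩
      simp only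
      linarith)
    (by
      intro θ hθ
      have := (HF k hk θ ⟨by linarith [hθ.1], by linarith [hθ.2]⟩).1
      simp only
      linarith)
    (by
      intro θ hθ
      have := (HF k hk θ ⟨by linarith [hθ.1], by linarith [hθ.2]⟩).2 (phk m k + bet m)
        ⟨by linarith, hφ2⟩ (by
          rw [show phk m k - (phk m k + bet m) = -bet m by ring, abs_neg, abs_of_pos hb])
      simp only
      linarith)
  simp only at e1 e2
  have hθI : θ ∈ Icc 0 δ := ⟨by linarith [hθ.1], by linarith [hθ.2]⟩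
  have hφI : φ ∈ Icc (1 / 4 : ℝ) (1 / 2) := ⟨by linarith [hφ.1], by linarith [hφ.2]⟩
  have hpi := Real.pi_gt_three
  have hsφ : 0 < Real.sin φ := Real.sin_pos_of_pos_of_lt_pi (by linarith [hφI.1])
    (by linarith [hφI.2])
  refine ⟨ln (pt θ φ h η) (dr θ φ), ⟨_, _, ?_, rfl⟩, ?_, ?_, ?_, ?_, ?_, ?_⟩
  · intro h0
    have := norm_dr θ φ
    rw [h0, norm_zero] at this
    norm_num at this
  · intro l hl
    rw [infDist_eq_one_iff _ _ _ (norm_dr θ φ), dist_formula, hh, QQ_AA η (by linarith)]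
    rcases hl with rfl | rfl
    · ring
    · push_cast
      ring
  · intro l hl
    rw [one_lt_infDist_iff _ _ _ (norm_dr θ φ), dist_formula, hh, QQ_AA η (by linarith)]
    push Not at hl
    have : 0 < ((l : ℝ) - i) * (l - i - 1) := by
      rcases lt_or_gt_of_ne hl.1 with h1 | h1
      · have : (l : ℝ) + 1 ≤ i := by exact_mod_cast h1
        nlinarith
      · have : (i : ℝ) + 2 ≤ l := by
          have : i + 2 ≤ l := by omega
          exact_mod_cast this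
        nlinarith
    have : 0 < Real.sin φ ^ 2 * η ^ 2 * (((l : ℝ) - i) * (l - i - 1)) := by positivity
    linarith
  · rw [infDist_eq_one_iff _ _ _ (norm_dr θ φ), dist_formula]
    linarith
  · intro j' hj'm hne
    rw [one_lt_infDist_iff _ _ _ (norm_dr θ φ), dist_formula]
    refine (HR j' hj'm).2 θ hθI ?_ φ hφI
    have e3 : δ * j' / m - δ * j / m = 2 * α * ((j' : ℝ) - j) := by
      rw [hα]; field_simp
    rcases lt_or_gt_of_ne hne with h1 | h1
    · have : (j' : ℝ) + 1 ≤ j := by exact_mod_cast h1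
      rw [abs_of_nonpos (by nlinarith [hθ.1])]
      nlinarith [hθ.1]
    · have : (j : ℝ) + 1 ≤ j' := by exact_mod_cast h1
      rw [abs_of_nonneg (by nlinarith [hθ.2])]
      nlinarith [hθ.2]
  · rw [infDist_eq_one_iff _ _ _ (norm_dr θ φ), dist_formula]
    linarith
  · intro k' hk'm hne
    rw [one_lt_infDist_iff _ _ _ (norm_dr θ φ), dist_formula]
    refine (HF k' hk'm θ hθI).2 φ hφI ?_
    have e3 : phk m k' - phk m k = 2 * bet m * ((k' : ℝ) - k) := by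
      unfold phk bet; field_simp; ring
    rcases lt_or_gt_of_ne hne with h1 | h1
    · have : (k' : ℝ) + 1 ≤ k := by exact_mod_cast h1
      rw [abs_of_nonpos (by nlinarith [hφ.1])]
      nlinarith [hφ.1]
    · have : (k : ℝ) + 1 ≤ k' := by exact_mod_cast h1
      rw [abs_of_nonneg (by nlinarith [hφ.2])]
      nlinarith [hφ.2]

end Pool.Agent.Balls
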