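import Pool.Agent.Balls.Geom

set_option autoImplicit false

open MeasureTheory

namespace Pool.Agent.Balls

/-- The members of a finite set of points are affinely independent. -/
def Ind (T : Finset E3) : Prop := AffineIndependent ℝ (fun x : T => (x : E3))

theorem ind_insert [DecidableEq E3] {T : Finset E3} (h : Ind T) (p : E3)
    (hp : p ∉ affineSpan ℝ (T : Set E3)) : Ind (insert p T) := by
  have hpT : p ∉ T := fun h' => hp (subset_affineSpan ℝ _ (Finset.mem_coe.2 h'))
  unfold Ind
  refine AffineIndependent.affineIndependent_of_notMem_span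
    (i := (⟨p, Finset.mem_insert_self p T⟩ : (insert p T : Finset E3))) ?_ ?_
  · have e : ∀ x : {y : (insert p T : Finset E3) // y ≠ ⟨p, Finset.mem_insert_self p T⟩},
        (x.1.1 : E3) ∈ T := by
      rintro ⟨⟨y, hy⟩, hne⟩
      rcases Finset.mem_insert.1 hy with h1 | h1
      · exact absurd (Subtype.ext h1) hne
      · exact h1
    let f : {y : (insert p T : Finset E3) // y ≠ ⟨p, Finset.mem_insert_self p T⟩} ↪ T :=
      ⟨fun x => ⟨x.1.1, e x⟩, fun x y hxy => by
        apply Subtype.ext
        apply Subtype.ext
        exact congrArg (fun t : T => (t : E3)) hxy⟩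
    exact h.comp_embedding f
  · intro hmem
    apply hp
    refine affineSpan_mono ℝ ?_ hmem
    rintro _ ⟨⟨y, hy⟩, hne, rfl⟩
    rcases Finset.mem_insert.1 hy with h1 | h1
    · exact absurd (Subtype.ext h1) hne
    · exact h1

/-- A nonempty open set contains a point outside the spans of at most three points of a finite
set. -/
theorem exists_generic [DecidableEq E3] (S : Finset E3) (U : Set E3) (hU : IsOpen U)
    (hne : U.Nonempty) :
    ∃ p ∈ U, ∀ T ⊆ S, T.card ≤ 3 → p ∉ affineSpan ℝ (T : Set E3) := by
  by_contra hcon
  push Not at hcon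
  have hsub : U ⊆ ⋃ T ∈ (S.powerset.filter (fun T => T.card ≤ 3) : Set (Finset E3)),
      (affineSpan ℝ (T : Set E3) : Set E3) := by
    intro p hp
    obtain ⟨T, hT, hc, hpT⟩ := hcon p hp
    simp only [Set.mem_iUnion]
    exact ⟨T, Finset.mem_filter.2 ⟨Finset.mem_powerset.2 hT, hc⟩, hpT⟩
  have hzero : volume (⋃ T ∈ (S.powerset.filter (fun T => T.card ≤ 3) : Set (Finset E3)),
      (affineSpan ℝ (T : Set E3) : Set E3)) = 0 := by
    rw [measure_biUnion_null_iff (Finset.countable_toSet _)]
    intro T hT
    apply Measure.addHaar_affineSubspace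
    intro htop
    have h1 : Module.finrank ℝ (vectorSpan ℝ (T : Set E3)) ≤ 2 := by
      rcases T.eq_empty_or_nonempty with rfl | hTn
      · rw [Finset.coe_empty, vectorSpan_empty, finrank_bot]
        omega
      · have h2 : T.card ≤ 3 := (Finset.mem_filter.1 hT).2
        have h3 := finrank_vectorSpan_image_finset_le ℝ (fun x : E3 => x) T (n := T.card - 1) (by
          have := hTn.card_pos
          omega)
        have h4 : (T.image fun x : E3 => x) = T := by
          ext x; simp
        rw [h4] at h3
        omega
    rw [← direction_affineSpan, htop, AffineSubspace.direction_top, finrank_top,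
      finrank_euclideanSpace] at h1
    simp at h1
  exact (hU.measure_pos volume hne).ne' (measure_mono_null hsub hzero)

/-- Choice of points in general position with respect to a base set `A`: finitely many points
can be moved a little so that every set of at most four of all points that contains at most two
points of `A` is affinely independent. -/
theorem exists_generic_family [DecidableEq E3] (A : Finset E3) :
    ∀ (N : ℕ) (U : Fin N → Set E3), (∀ i, IsOpen (U i)) → (∀ i, (U i).Nonempty) →
      ∃ p : Fin N → E3, (∀ i, p i ∈ U i) ∧ Function.Injective p ∧ (∀ i, p i ∉ A) ∧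
        ∀ T ⊆ A ∪ Finset.univ.image p, T.card ≤ 4 → (T ∩ A).card ≤ 2 → Ind T := by
  intro N
  induction N with
  | zero =>
    intro U _ _
    refine ⟨Fin.elim0, fun i => i.elim0, fun i => i.elim0, fun i => i.elim0, ?_⟩
    intro T hT _ hc
    have hTA : T ⊆ A := by
      intro x hx
      have := hT hx
      simpa using this
    rw [Finset.inter_eq_left.2 hTA] at hc
    unfold Ind
    rcases Nat.lt_or_ge T.card 2 with h | h
    · have : Subsingleton T := by
        rw [← Fintype.card_le_one_iff_subsingleton, Fintype.card_coe]
        omega
      exact affineIndependent_of_subsingleton ℝ _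
    · have h2 : T.card = 2 := le_antisymm hc h
      obtain ⟨x, y, hxy, rfl⟩ := Finset.card_eq_two.1 h2
      have h3 : Ind {y} := by
        unfold Ind
        have : Subsingleton ({y} : Finset E3) := by
          rw [← Fintype.card_le_one_iff_subsingleton, Fintype.card_coe]
          simp
        exact affineIndependent_of_subsingleton ℝ _
      refine ind_insert h3 x ?_
      simp only [Finset.coe_singleton, AffineSubspace.mem_affineSpan_singleton]
      exact hxy
  | succ N ih =>
    intro U hU hne
    obtain ⟨p, hp1, hp2, hp3, hp4⟩ := ih (fun i => U i.castSucc) (fun i => hU _) (fun i => hne _)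
    obtain ⟨q, hqU, hq⟩ := exists_generic (A ∪ Finset.univ.image p) (U (Fin.last N)) (hU _) (hne _)
    have hqS : q ∉ A ∪ Finset.univ.image p := by
      intro h
      apply hq {q} (Finset.singleton_subset_iff.2 h) (by simp)
      simp
    refine ⟨Fin.snoc p q, ?_, ?_, ?_, ?_⟩
    · intro i
      refine Fin.lastCases ?_ (fun i => ?_) i
      · rw [Fin.snoc_last]; exact hqU
      · rw [Fin.snoc_castSucc]; exact hp1 i
    · rw [Fin.snoc_injective_iff]
      refine ⟨hp2, ?_⟩
      rintro ⟨i, hi⟩
      exact hqS (Finset.mem_union_right _ (Finset.mem_image.2 ⟨i, Finset.mem_univ _, hi⟩))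
    · intro i
      refine Fin.lastCases ?_ (fun i => ?_) i
      · rw [Fin.snoc_last]
        exact fun h => hqS (Finset.mem_union_left _ h)
      · rw [Fin.snoc_castSucc]; exact hp3 i
    · intro T hT hc hA
      have hsub : ∀ x ∈ T, x ≠ q → x ∈ A ∪ Finset.univ.image p := by
        intro x hx hxq
        rcases Finset.mem_union.1 (hT hx) with h | h
        · exact Finset.mem_union_left _ h
        · obtain ⟨i, _, rfl⟩ := Finset.mem_image.1 h
          apply Finset.mem_union_right
          revert hxq
          refine Fin.lastCases ?_ (fun i => ?_) i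
          · rw [Fin.snoc_last]; intro h; exact absurd rfl h
          · rw [Fin.snoc_castSucc]
            intro _
            exact Finset.mem_image.2 ⟨i, Finset.mem_univ _, rfl⟩
      by_cases hqT : q ∈ T
      · have h1 : T.erase q ⊆ A ∪ Finset.univ.image p := fun x hx =>
          hsub x (Finset.mem_of_mem_erase hx) (Finset.ne_of_mem_erase hx)
        have h2 : (T.erase q).card ≤ 3 := by
          rw [Finset.card_erase_of_mem hqT]; omega
        have h3 : Ind (T.erase q) := hp4 _ h1 (by omega)
          ((Finset.card_le_card (Finset.inter_subset_inter_right (Finset.erase_subset _ _))).trans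
            hA)
        have h4 := ind_insert h3 q (hq _ h1 h2)
        rwa [Finset.insert_erase hqT] at h4
      · exact hp4 T (fun x hx => hsub x hx (fun h => hqT (h ▸ hx))) hc hA

end Pool.Agent.Balls
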