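import Pool.Agent.Balls.Finite
import Pool.Agent.Balls.Generic
import Pool.Agent.Balls.Exist

set_option autoImplicit false

open Set
open scoped RealInnerProductSpace

namespace Pool.Agent.Balls

theorem AA_injective {η : ℝ} (hη : 0 < η) : Function.Injective (AA η) := by
  intro l l' h
  have h2 : (AA η l) 2 = (AA η l') 2 := by rw [h]
  simp only [AA, PiLp.toLp_apply, Matrix.cons_val] at h2
  have := mul_left_cancel₀ hη.ne' h2
  exact_mod_cast this

/-- A line tangent to three balls of the stack is tangent to all of them. -/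
theorem three_tangent {η : ℝ} (hη : 0 < η) (L : Set E3) (hL : IsLine L) (l1 l2 l3 : ℕ)
    (h12 : l1 ≠ l2) (h13 : l1 ≠ l3) (h23 : l2 ≠ l3) (h1 : Metric.infDist (AA η l1) L = 1)
    (h2 : Metric.infDist (AA η l2) L = 1) (h3 : Metric.infDist (AA η l3) L = 1) (l : ℕ) :
    Metric.infDist (AA η l) L = 1 := by
  obtain ⟨P, d, hd, -, rfl⟩ := hL.normal 0
  rw [infDist_eq_one_iff _ _ _ hd] at h1 h2 h3 ⊢
  -- the squared distance is a quadratic polynomial in the height
  obtain ⟨α, β, γ, hq⟩ : ∃ α β γ : ℝ, ∀ l : ℕ, ‖AA η l - P‖ ^ 2 - ⟪AA η l - P, d⟫ ^ 2 =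
      α * (l : ℝ) ^ 2 + β * l + γ := by
    refine ⟨η ^ 2 * (1 - d 2 ^ 2), -2 * η * P 2 + 2 * η * d 2 * (P 0 * d 0 + P 1 * d 1 + P 2 * d 2),
      P 0 ^ 2 + P 1 ^ 2 + P 2 ^ 2 - (P 0 * d 0 + P 1 * d 1 + P 2 * d 2) ^ 2, fun l => ?_⟩
    rw [EuclideanSpace.real_norm_sq_eq, Fin.sum_univ_three, PiLp.inner_apply, Fin.sum_univ_three]
    simp only [PiLp.sub_apply, AA, PiLp.toLp_apply, Matrix.cons_val_zero, Matrix.cons_val_one,
      Matrix.cons_val, RCLike.inner_apply, conj_trivial]
    ring
  rw [hq] at h1 h2 h3 ⊢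
  have n12 : (l1 : ℝ) - l2 ≠ 0 := sub_ne_zero.2 (by exact_mod_cast h12)
  have n13 : (l1 : ℝ) - l3 ≠ 0 := sub_ne_zero.2 (by exact_mod_cast h13)
  have n23 : (l2 : ℝ) - l3 ≠ 0 := sub_ne_zero.2 (by exact_mod_cast h23)
  have e1 : α * (l1 + l2) + β = 0 := by
    have : ((l1 : ℝ) - l2) * (α * (l1 + l2) + β) = 0 := by linear_combination h1 - h2
    exact (mul_eq_zero.1 this).resolve_left n12
  have e2 : α * (l1 + l3) + β = 0 := by
    have : ((l1 : ℝ) - l3) * (α * (l1 + l3) + β) = 0 := by linear_combination h1 - h3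
    exact (mul_eq_zero.1 this).resolve_left n13
  have e3 : α = 0 := by
    have : ((l2 : ℝ) - l3) * α = 0 := by linear_combination e1 - e2
    exact (mul_eq_zero.1 this).resolve_left n23
  have e4 : β = 0 := by rw [e3] at e1; linarith
  rw [e3, e4] at h1 ⊢
  linarith

/-- Four unit balls with affinely independent centres have finitely many common tangent lines. -/
theorem finite_tangents_finset (s : Finset E3) (hs : s.card = 4) (hind : Ind s) :
    {L | IsLine L ∧ ∀ c ∈ s, Metric.infDist c L = 1}.Finite := by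
  classical
  let e : Fin 4 ≃ s := (Fintype.equivFinOfCardEq (by rw [Fintype.card_coe, hs])).symm
  have h1 : AffineIndependent ℝ fun i : Fin 4 => (e i : E3) := hind.comp_embedding e.toEmbedding
  rw [affineIndependent_iff_linearIndependent_vsub ℝ _ (0 : Fin 4)] at h1
  have h2 : LinearIndependent ℝ fun i : Fin 3 => ((e i.succ : E3) - e 0) := by
    have := h1.comp (fun i : Fin 3 => (⟨i.succ, Fin.succ_ne_zero i⟩ : {x : Fin 4 // x ≠ 0}))
      (by
        intro i j hij
        exact Fin.succ_injective _ (congrArg Subtype.val hij))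
    exact this
  refine (finite_tangents (e 0 : E3) _ h2).subset ?_
  rintro L ⟨hL, hL2⟩
  refine ⟨hL, hL2 _ (e 0).2, fun i => ?_⟩
  rw [add_sub_cancel]
  exact hL2 _ (e i.succ).2

/-- The main construction: `a + 1` balls in the stack, `m` side balls and `m` far balls. -/
theorem construction (a m : ℕ) (ha : 4 ≤ a) (hm : 0 < m) :
    ∃ B : Finset E3, B.card = a + 1 + 2 * m ∧ (freeTangents B).Finite ∧
      a * m * m ≤ (freeTangents B).ncard := by
  classical
  obtain ⟨η, hη, UR, UF, o1, o2, o3, o4, H⟩ := exists_lines a m hm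
  set A : Finset E3 := (Finset.range (a + 1)).image (AA η) with hA
  obtain ⟨p, hp1, hp2, hp3, hp4⟩ := exists_generic_family A (m + m)
    (fun i => Fin.addCases (fun j => UR j) (fun j => UF j) i)
    (fun i => by
      refine Fin.addCases (fun j => ?_) (fun j => ?_) i
      · rw [Fin.addCases_left]; exact o1 _
      · rw [Fin.addCases_right]; exact o3 _)
    (fun i => by
      refine Fin.addCases (fun j => ?_) (fun j => ?_) i
      · rw [Fin.addCases_left]; exact o2 _
      · rw [Fin.addCases_right]; exact o4 _)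
  set R : ℕ → E3 := fun j => if h : j < m then p (Fin.castAdd m ⟨j, h⟩) else 0 with hR
  set F : ℕ → E3 := fun j => if h : j < m then p (Fin.natAdd m ⟨j, h⟩) else 0 with hF
  have hRj : ∀ j (h : j < m), R j = p (Fin.castAdd m ⟨j, h⟩) := fun j h => by
    simp only [hR]; rw [dif_pos h]
  have hFj : ∀ j (h : j < m), F j = p (Fin.natAdd m ⟨j, h⟩) := fun j h => by
    simp only [hF]; rw [dif_pos h]
  have H' := H R F
    (fun j hj => by
      have := hp1 (Fin.castAdd m ⟨j, hj⟩)
      rw [Fin.addCases_left] at this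
      rw [hRj j hj]
      exact this)
    (fun j hj => by
      have := hp1 (Fin.natAdd m ⟨j, hj⟩)
      rw [Fin.addCases_right] at this
      rw [hFj j hj]
      exact this)
  set B : Finset E3 := A ∪ Finset.univ.image p with hB
  have hRB : ∀ j < m, R j ∈ B := fun j hj => by
    rw [hRj j hj]
    exact Finset.mem_union_right _ (Finset.mem_image_of_mem _ (Finset.mem_univ _))
  have hFB : ∀ j < m, F j ∈ B := fun j hj => by
    rw [hFj j hj]
    exact Finset.mem_union_right _ (Finset.mem_image_of_mem _ (Finset.mem_univ _))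
  have hAB : ∀ l ≤ a, AA η l ∈ A := fun l hl =>
    Finset.mem_image_of_mem _ (Finset.mem_range.2 (by omega))
  have hRA : ∀ j < m, R j ∉ A := fun j hj => by rw [hRj j hj]; exact hp3 _
  have hFA : ∀ j < m, F j ∉ A := fun j hj => by rw [hFj j hj]; exact hp3 _
  have hRF : ∀ j < m, ∀ k < m, R j ≠ F k := by
    intro j hj k hk h
    rw [hRj j hj, hFj k hk] at h
    have := congrArg Fin.val (hp2 h)
    simp only [Fin.val_castAdd, Fin.val_natAdd] at this
    omega
  have hcases : ∀ c ∈ B, (∃ l ≤ a, c = AA η l) ∨ (∃ j < m, c = R j) ∨ (∃ k < m, c = F k) := by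
    intro c hc
    rcases Finset.mem_union.1 hc with h | h
    · obtain ⟨l, hl, rfl⟩ := Finset.mem_image.1 h
      exact Or.inl ⟨l, by have := Finset.mem_range.1 hl; omega, rfl⟩
    · obtain ⟨i, _, rfl⟩ := Finset.mem_image.1 h
      right
      refine Fin.addCases (fun j => ?_) (fun j => ?_) i
      · exact Or.inl ⟨j, j.2, (hRj j j.2).symm⟩
      · exact Or.inr ⟨j, j.2, (hFj j j.2).symm⟩
  have hcard : B.card = a + 1 + 2 * m := by
    rw [hB, Finset.card_union_of_disjoint, hA, Finset.card_image_of_injective _ (AA_injective hη),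
      Finset.card_range, Finset.card_image_of_injective _ hp2, Finset.card_univ, Fintype.card_fin]
    · ring
    · rw [Finset.disjoint_left]
      intro x hx hx2
      obtain ⟨i, _, rfl⟩ := Finset.mem_image.1 hx2
      exact hp3 i hx
  have hfin : (freeTangents B).Finite := by
    have hsub : freeTangents B ⊆ ⋃ s ∈ ((B.powersetCard 4).filter
        (fun s => (s ∩ A).card ≤ 2) : Finset (Finset E3)),
        {L | IsLine L ∧ ∀ c ∈ s, Metric.infDist c L = 1} := by
      rintro L ⟨hL, s, hsB, hs4, hs1, hs2⟩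
      have h2 : (s ∩ A).card ≤ 2 := by
        by_contra hcon
        push Not at hcon
        obtain ⟨c1, c2, c3, h1, h2, h3, h12, h13, h23⟩ := Finset.two_lt_card_iff.1 hcon
        obtain ⟨l1, _, rfl⟩ := Finset.mem_image.1 (Finset.mem_inter.1 h1).2
        obtain ⟨l2, _, rfl⟩ := Finset.mem_image.1 (Finset.mem_inter.1 h2).2
        obtain ⟨l3, _, rfl⟩ := Finset.mem_image.1 (Finset.mem_inter.1 h3).2
        have hall := three_tangent hη L hL l1 l2 l3 (fun h => h12 (by rw [h]))
          (fun h => h13 (by rw [h])) (fun h => h23 (by rw [h]))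
          (hs1 _ (Finset.mem_inter.1 h1).1) (hs1 _ (Finset.mem_inter.1 h2).1)
          (hs1 _ (Finset.mem_inter.1 h3).1)
        have hAs : A ⊆ s := by
          intro c hc
          by_contra hcs
          have h4 := hs2 c (Finset.mem_union_left _ hc) hcs
          obtain ⟨l, _, rfl⟩ := Finset.mem_image.1 hc
          rw [hall l] at h4
          exact lt_irrefl _ h4
        have h5 := Finset.card_le_card hAs
        rw [hs4, hA, Finset.card_image_of_injective _ (AA_injective hη), Finset.card_range] at h5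
        omega
      simp only [Set.mem_iUnion]
      exact ⟨s, Finset.mem_filter.2 ⟨Finset.mem_powersetCard.2 ⟨hsB, hs4⟩, h2⟩, hL, hs1⟩
    refine Set.Finite.subset ?_ hsub
    refine Set.Finite.biUnion (Finset.finite_toSet _) ?_
    intro s hs
    obtain ⟨hs1, hs2⟩ := Finset.mem_filter.1 hs
    obtain ⟨hs3, hs4⟩ := Finset.mem_powersetCard.1 hs1
    exact finite_tangents_finset s hs4 (hp4 s hs3 hs4.le hs2)
  refine ⟨B, hcard, hfin, ?_⟩
  choose! L hL using fun (i : ℕ) (hi : i < a) (j : ℕ) (hj : j < m) (k : ℕ) (hk : k < m) =>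
    H' i hi j hj k hk
  have hmem : ∀ i < a, ∀ j < m, ∀ k < m, L i j k ∈ freeTangents B := by
    intro i hi j hj k hk
    obtain ⟨g0, g1, g2, g3, g4, g5, g6⟩ := hL i hi j hj k hk
    refine ⟨g0, {AA η i, AA η (i + 1), R j, F k}, ?_, ?_, ?_, ?_⟩
    · intro c hc
      simp only [Finset.mem_insert, Finset.mem_singleton] at hc
      rcases hc with rfl | rfl | rfl | rfl
      · exact Finset.mem_union_left _ (hAB i (by omega))
      · exact Finset.mem_union_left _ (hAB (i + 1) (by omega))
      · exact hRB j hj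
      · exact hFB k hk
    · have n1 : AA η i ≠ AA η (i + 1) := fun h => by
        have := AA_injective hη h; omega
      have n2 : AA η i ≠ R j := fun h => hRA j hj (h ▸ hAB i (by omega))
      have n3 : AA η i ≠ F k := fun h => hFA k hk (h ▸ hAB i (by omega))
      have n4 : AA η (i + 1) ≠ R j := fun h => hRA j hj (h ▸ hAB (i + 1) (by omega))
      have n5 : AA η (i + 1) ≠ F k := fun h => hFA k hk (h ▸ hAB (i + 1) (by omega))
      have n6 := hRF j hj k hk
      rw [Finset.card_insert_of_notMem, Finset.card_insert_of_notMem,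
        Finset.card_insert_of_notMem, Finset.card_singleton]
      · simpa using n6
      · simpa using ⟨n4, n5⟩
      · simpa using ⟨n1, n2, n3⟩
    · intro c hc
      simp only [Finset.mem_insert, Finset.mem_singleton] at hc
      rcases hc with rfl | rfl | rfl | rfl
      · exact g1 _ (Or.inl rfl)
      · exact g1 _ (Or.inr rfl)
      · exact g3
      · exact g5
    · intro c hc hcs
      simp only [Finset.mem_insert, Finset.mem_singleton, not_or] at hcs
      rcases hcases c hc with ⟨l, _, rfl⟩ | ⟨j', hj', rfl⟩ | ⟨k', hk', rfl⟩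
      · refine g2 l ?_
        rintro (rfl | rfl)
        · exact hcs.1 rfl
        · exact hcs.2.1 rfl
      · exact g4 j' hj' (fun h => hcs.2.2.1 (by rw [h]))
      · exact g6 k' hk' (fun h => hcs.2.2.2 (by rw [h]))
  have hinj : ∀ i < a, ∀ j < m, ∀ k < m, ∀ i' < a, ∀ j' < m, ∀ k' < m,
      L i j k = L i' j' k' → i = i' ∧ j = j' ∧ k = k' := by
    intro i hi j hj k hk i' hi' j' hj' k' hk' he
    obtain ⟨-, g1, g2, g3, g4, g5, g6⟩ := hL i hi j hj k hk
    obtain ⟨-, f1, f2, f3, f4, f5, f6⟩ := hL i' hi' j' hj' k' hk'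
    rw [← he] at f1 f2 f3 f4 f5 f6
    refine ⟨?_, ?_, ?_⟩
    · by_contra hne
      have h1 : i = i' ∨ i = i' + 1 := by
        by_contra h
        have := f2 i h
        rw [g1 i (Or.inl rfl)] at this
        exact lt_irrefl _ this
      have h2 : i + 1 = i' ∨ i + 1 = i' + 1 := by
        by_contra h
        have := f2 (i + 1) h
        rw [g1 (i + 1) (Or.inr rfl)] at this
        exact lt_irrefl _ this
      omega
    · by_contra hne
      have := f4 j hj hne
      rw [g3] at this
      exact lt_irrefl _ this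
    · by_contra hne
      have := f6 k hk hne
      rw [g5] at this
      exact lt_irrefl _ this
  let Φ : Fin a × Fin m × Fin m → Set E3 := fun q => L q.1 q.2.1 q.2.2
  have hΦ : Function.Injective Φ := by
    rintro ⟨i, j, k⟩ ⟨i', j', k'⟩ he
    obtain ⟨h1, h2, h3⟩ := hinj i i.2 j j.2 k k.2 i' i'.2 j' j'.2 k' k'.2 he
    rw [Fin.ext h1, Fin.ext h2, Fin.ext h3]
  have hrange : Set.range Φ ⊆ freeTangents B := by
    rintro _ ⟨⟨i, j, k⟩, rfl⟩
    exact hmem i i.2 j j.2 k k.2
  have h1 := Set.ncard_le_ncard hrange hfin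
  have h2 : (Set.range Φ).ncard = a * m * m := by
    rw [← Set.image_univ, Set.ncard_image_of_injective _ hΦ, Set.ncard_univ]
    simp [Nat.card_eq_fintype_card, mul_assoc]
  omega

end Pool.Agent.Balls
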