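import Pool.Agent.Balls.Geom
import Pool.Agent.Balls.Alg

set_option autoImplicit false

open MvPolynomial
open scoped RealInnerProductSpace

namespace Pool.Agent.Balls

/-- A complex isotropic vector and an isotropic vector orthogonal to it are proportional. -/
theorem isotropic_prop (z P : Fin 3 → ℂ) (hz : ∑ l, z l ^ 2 = 0) (hP : ∑ l, P l ^ 2 = 0)
    (h : ∑ l, P l * z l = 0) (hz0 : z ≠ 0) : ∃ lam : ℂ, ∀ l, P l = lam * z l := by
  have hcross : ∀ i j, P i * z j = P j * z i := by
    have e01 : (P 0 * z 1 - P 1 * z 0) ^ 2 = 0 := by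
      simp only [Fin.sum_univ_three] at hz hP h
      linear_combination (P 0 ^ 2 + P 1 ^ 2) * hz - z 2 ^ 2 * hP
        - (P 0 * z 0 + P 1 * z 1 - P 2 * z 2) * h
    have e02 : (P 0 * z 2 - P 2 * z 0) ^ 2 = 0 := by
      simp only [Fin.sum_univ_three] at hz hP h
      linear_combination (P 0 ^ 2 + P 2 ^ 2) * hz - z 1 ^ 2 * hP
        - (P 0 * z 0 + P 2 * z 2 - P 1 * z 1) * h
    have e12 : (P 1 * z 2 - P 2 * z 1) ^ 2 = 0 := by
      simp only [Fin.sum_univ_three] at hz hP h
      linear_combination (P 1 ^ 2 + P 2 ^ 2) * hz - z 0 ^ 2 * hP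
        - (P 1 * z 1 + P 2 * z 2 - P 0 * z 0) * h
    have f01 := sub_eq_zero.1 (pow_eq_zero_iff (two_ne_zero) |>.1 e01)
    have f02 := sub_eq_zero.1 (pow_eq_zero_iff (two_ne_zero) |>.1 e02)
    have f12 := sub_eq_zero.1 (pow_eq_zero_iff (two_ne_zero) |>.1 e12)
    intro i j
    fin_cases i <;> fin_cases j <;> simp_all
  obtain ⟨m, hm⟩ : ∃ m, z m ≠ 0 := by
    by_contra hcon
    push Not at hcon
    exact hz0 (funext hcon)
  refine ⟨P m / z m, fun l => ?_⟩
  have := hcross l m
  field_simp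
  exact this

theorem no_isotropic (M : Matrix (Fin 3) (Fin 3) ℝ) (hM : IsUnit M.det) (z P : Fin 3 → ℂ)
    (hz : ∑ l, z l ^ 2 = 0) (hP : ∑ l, P l ^ 2 = 0) (h : ∑ l, P l * z l = 0)
    (hb : ∀ i, ∑ l, (M i l : ℂ) * P l = -(∑ l, (M i l : ℂ) * z l) ^ 2 / 2) : z = 0 := by
  by_contra hz0
  obtain ⟨lam, hlam⟩ := isotropic_prop z P hz hP h hz0
  have h1 : ∀ i, ∃ e : ℝ, ∑ l, (M i l : ℂ) * z l = -2 * lam * e := by
    intro i
    have h2 := hb i
    have h3 : ∑ l, (M i l : ℂ) * P l = lam * ∑ l, (M i l : ℂ) * z l := by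
      rw [Finset.mul_sum]
      refine Finset.sum_congr rfl fun l _ => ?_
      rw [hlam l]; ring
    rw [h3] at h2
    set s := ∑ l, (M i l : ℂ) * z l
    have h4 : s * (s + 2 * lam) = 0 := by linear_combination 2 * h2
    rcases mul_eq_zero.1 h4 with h5 | h5
    · exact ⟨0, by rw [h5]; simp⟩
    · exact ⟨1, by
        have : s = -(2 * lam) := by linear_combination h5
        rw [this]; simp⟩
  choose e he using h1
  have hinv : M⁻¹ * M = 1 := Matrix.nonsing_inv_mul M hM
  have hz1 : ∀ l, z l = -2 * lam * ((∑ i, M⁻¹ l i * e i : ℝ) : ℂ) := by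
    intro l
    have h6 : ∀ j, ∑ i, ((M⁻¹ l i : ℝ) : ℂ) * (M i j : ℂ) = if l = j then 1 else 0 := by
      intro j
      have h7 := congrFun (congrFun hinv l) j
      rw [Matrix.mul_apply, Matrix.one_apply] at h7
      have h8 := congrArg (fun x : ℝ => (x : ℂ)) h7
      push_cast at h8
      rw [h8]
      split_ifs <;> simp
    have h9 : z l = ∑ i, ((M⁻¹ l i : ℝ) : ℂ) * ∑ j, (M i j : ℂ) * z j := by
      simp_rw [Finset.mul_sum]
      rw [Finset.sum_comm]
      have : ∀ j, ∑ i, ((M⁻¹ l i : ℝ) : ℂ) * ((M i j : ℂ) * z j) = (if l = j then z j else 0) := by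
        intro j
        simp_rw [← mul_assoc]
        rw [← Finset.sum_mul, h6 j]
        split_ifs <;> simp
      simp_rw [this]
      simp
    rw [h9]
    simp_rw [he]
    push_cast
    rw [Finset.mul_sum]
    refine Finset.sum_congr rfl fun i _ => ?_
    ring
  set w : Fin 3 → ℝ := fun l => ∑ i, M⁻¹ l i * e i with hw
  have h10 : (-2 * lam) ^ 2 * ((∑ l, w l ^ 2 : ℝ) : ℂ) = 0 := by
    rw [← hz]
    push_cast
    rw [Finset.mul_sum]
    refine Finset.sum_congr rfl fun l _ => ?_
    rw [hz1 l]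
    ring
  rcases mul_eq_zero.1 h10 with h11 | h11
  · have h12 : -2 * lam = 0 := by
      exact pow_eq_zero_iff (two_ne_zero) |>.1 h11
    apply hz0
    funext l
    rw [hz1 l, h12, zero_mul]
    rfl
  · have h12 : ∑ l, w l ^ 2 = 0 := by exact_mod_cast h11
    have h13 : ∀ l, w l = 0 := by
      intro l
      have := (Finset.sum_eq_zero_iff_of_nonneg (fun l _ => sq_nonneg (w l))).1 h12 l
        (Finset.mem_univ l)
      exact pow_eq_zero_iff (two_ne_zero) |>.1 this
    apply hz0
    funext l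
    rw [hz1 l]
    have := h13 l
    rw [hw] at this
    simp only at this
    rw [this]
    simp

/-- Four unit balls with affinely independent centres have finitely many common tangent lines. -/
theorem finite_tangents (c0 : E3) (b : Fin 3 → E3) (hb : LinearIndependent ℝ b) :
    {L | IsLine L ∧ Metric.infDist c0 L = 1 ∧ ∀ i, Metric.infDist (c0 + b i) L = 1}.Finite := by
  classical
  set M : Matrix (Fin 3) (Fin 3) ℝ := fun i j => b i j with hMdef
  have hM : IsUnit M.det := by
    rw [← Matrix.isUnit_iff_isUnit_det, ← Matrix.linearIndependent_rows_iff_isUnit]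
    have : (WithLp.linearEquiv 2 ℝ (Fin 3 → ℝ)).toLinearMap ∘ b = M.row := by
      funext i
      rfl
    rw [← this]
    exact hb.map' _ (LinearEquiv.ker _)
  let N : MvPolynomial (Fin 3) ℝ := ∑ j, X j ^ 2
  let Lp : Fin 3 → MvPolynomial (Fin 3) ℝ := fun i => ∑ j, C (M i j) * X j
  let Qp : Fin 3 → MvPolynomial (Fin 3) ℝ := fun i =>
    C (1 / 2) * (C (∑ j, M i j ^ 2) * N - Lp i ^ 2)
  let Pp : Fin 3 → MvPolynomial (Fin 3) ℝ := fun l => ∑ i, C (M⁻¹ l i) * Qp i
  let F : MvPolynomial (Fin 3) ℝ := ∑ l, Pp l * X l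
  let G : MvPolynomial (Fin 3) ℝ := ∑ l, Pp l ^ 2 - N ^ 2
  have hN : N.IsHomogeneous 2 := by
    apply IsHomogeneous.sum
    intro j _
    exact isHomogeneous_X_pow j 2
  have hLp : ∀ i, (Lp i).IsHomogeneous 1 := by
    intro i
    apply IsHomogeneous.sum
    intro j _
    have := (isHomogeneous_C (Fin 3) (M i j)).mul (isHomogeneous_X ℝ j)
    simpa using this
  have hQp : ∀ i, (Qp i).IsHomogeneous 2 := by
    intro i
    have h1 := (isHomogeneous_C (Fin 3) (∑ j, M i j ^ 2)).mul hN
    have h2 := (hLp i).pow 2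
    have h3 := (isHomogeneous_C (Fin 3) (1 / 2 : ℝ)).mul
      ((by simpa using h1 : (C (∑ j, M i j ^ 2) * N).IsHomogeneous 2).sub
        (by simpa using h2 : (Lp i ^ 2).IsHomogeneous 2))
    rwa [zero_add] at h3
  have hPp : ∀ i, (Pp i).IsHomogeneous 2 := by
    intro l
    apply IsHomogeneous.sum
    intro i _
    have := (isHomogeneous_C (Fin 3) (M⁻¹ l i)).mul (hQp i)
    rwa [zero_add] at this
  have hF : F.IsHomogeneous 3 := by
    apply IsHomogeneous.sum
    intro l _
    exact (hPp l).mul (isHomogeneous_X ℝ l)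
  have hG : G.IsHomogeneous 4 := by
    refine IsHomogeneous.sub (IsHomogeneous.sum _ _ _ fun l _ => ?_) ?_
    · exact (hPp l).pow 2
    · exact hN.pow 2
  have hfin := finite_of_no_common_zero F G N hF hG hN (by
    intro z h1 h2 h3
    have hz : ∑ l, z l ^ 2 = 0 := by
      simpa [N, map_sum, map_pow] using h3
    have hQz : ∀ i, aeval z (Qp i) = -(∑ l, (M i l : ℂ) * z l) ^ 2 / 2 := by
      intro i
      simp only [Qp, Lp, map_mul, map_sub, map_pow, map_sum, aeval_C, aeval_X, h3, mul_zero,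
        zero_sub]
      simp only [Complex.coe_algebraMap]
      push_cast
      ring
    refine no_isotropic M hM z (fun l => aeval z (Pp l)) hz ?_ ?_ ?_
    · simp only [G, map_sub, map_sum, map_pow, h3] at h2
      simpa using h2
    · simpa [F, map_sum, map_mul] using h1
    · intro i
      have hinv : M * M⁻¹ = 1 := Matrix.mul_nonsing_inv M hM
      have h6 : ∀ j, ∑ l, (M i l : ℂ) * ((M⁻¹ l j : ℝ) : ℂ) = if i = j then 1 else 0 := by
        intro j
        have h7 := congrFun (congrFun hinv i) j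
        rw [Matrix.mul_apply, Matrix.one_apply] at h7
        have h8 := congrArg (fun x : ℝ => (x : ℂ)) h7
        push_cast at h8
        rw [h8]
        split_ifs <;> simp
      have h9 : ∀ l, aeval z (Pp l) = ∑ j, ((M⁻¹ l j : ℝ) : ℂ) * aeval z (Qp j) := by
        intro l
        simp [Pp, map_sum, map_mul]
      simp_rw [h9, Finset.mul_sum]
      rw [Finset.sum_comm]
      have h10 : ∀ j, ∑ l, (M i l : ℂ) * (((M⁻¹ l j : ℝ) : ℂ) * aeval z (Qp j)) =
          if i = j then aeval z (Qp j) else 0 := by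
        intro j
        simp_rw [← mul_assoc]
        rw [← Finset.sum_mul, h6 j]
        split_ifs <;> simp
      simp_rw [h10]
      simp only [Finset.sum_ite_eq, Finset.mem_univ, if_true]
      exact hQz i)
  refine (hfin.image fun z : Fin 3 → ℝ => ln (c0 + WithLp.toLp 2 fun l => eval z (Pp l))
    (WithLp.toLp 2 z)).subset ?_
  rintro L ⟨hL, h0, hi⟩
  obtain ⟨P, d, hd, hPd, rfl⟩ := hL.normal c0
  rw [infDist_eq_one_iff _ _ _ hd] at h0
  have h0' : ⟪c0 - P, d⟫ = 0 := by
    rw [← neg_sub, inner_neg_left, hPd, neg_zero]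
  rw [h0', ← norm_neg, neg_sub] at h0
  have hp1 : ‖P - c0‖ ^ 2 = 1 := by linarith
  have hpi : ∀ i, ⟪b i, P - c0⟫ = (‖b i‖ ^ 2 - ⟪b i, d⟫ ^ 2) / 2 := by
    intro i
    have h1 := hi i
    rw [infDist_eq_one_iff _ _ _ hd, show c0 + b i - P = b i - (P - c0) by abel,
      norm_sub_sq_real, hp1, inner_sub_left, hPd] at h1
    linarith
  have hd2 : ∑ l, d l ^ 2 = 1 := by
    have := EuclideanSpace.real_norm_sq_eq d
    rw [hd] at this
    rw [← this]; norm_num
  have hin : ∀ (x y : E3), ⟪x, y⟫ = ∑ l, x l * y l := by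
    intro x y
    rw [PiLp.inner_apply]
    refine Finset.sum_congr rfl fun l _ => ?_
    simp [mul_comm]
  have hQd : ∀ i, eval (fun l => d l) (Qp i) = ∑ l, M i l * (P - c0) l := by
    intro i
    have h1 := hpi i
    rw [hin, hin, EuclideanSpace.real_norm_sq_eq] at h1
    have h2 : ∑ l, M i l * (P - c0) l = ∑ l, (b i) l * (P - c0) l := rfl
    rw [h2, h1]
    simp only [Qp, Lp, N, map_mul, map_sub, map_pow, map_sum, eval_C, eval_X, hd2]
    simp only [hMdef]
    ring
  have hPd' : ∀ l, eval (fun l => d l) (Pp l) = (P - c0) l := by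
    intro l
    have h1 : eval (fun l => d l) (Pp l) = ∑ j, M⁻¹ l j * eval (fun l => d l) (Qp j) := by
      simp [Pp, map_sum, map_mul]
    rw [h1]
    simp_rw [hQd, Finset.mul_sum]
    rw [Finset.sum_comm]
    have hinv : M⁻¹ * M = 1 := Matrix.nonsing_inv_mul M hM
    have h10 : ∀ j, ∑ i, M⁻¹ l i * (M i j * (P - c0) j) = if l = j then (P - c0) j else 0 := by
      intro j
      simp_rw [← mul_assoc]
      have h7 := congrFun (congrFun hinv l) j
      rw [Matrix.mul_apply, Matrix.one_apply] at h7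
      rw [← Finset.sum_mul, h7]
      split_ifs <;> simp
    simp_rw [h10]
    simp
  refine ⟨fun l => d l, ⟨?_, ?_, ?_⟩, ?_⟩
  · have h1 : eval (fun l => d l) F = ∑ l, eval (fun l => d l) (Pp l) * d l := by
      simp [F, map_sum, map_mul]
    rw [h1]
    simp_rw [hPd']
    rw [← hin]
    exact hPd
  · have h1 : eval (fun l => d l) G = ∑ l, eval (fun l => d l) (Pp l) ^ 2 - (∑ l, d l ^ 2) ^ 2 := by
      simp [G, N, map_sum, map_mul]
    rw [h1, hd2]
    simp_rw [hPd']
    rw [EuclideanSpace.real_norm_sq_eq] at hp1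
    rw [hp1]
    norm_num
  · simpa [N, map_sum] using hd2
  · have h1 : (WithLp.toLp 2 fun l => eval (fun l => d l) (Pp l)) = P - c0 := by
      ext l
      exact hPd' l
    have h2 : WithLp.toLp 2 (fun l => d l) = d := rfl
    simp only [h1, h2]
    congr 1
    abel

end Pool.Agent.Balls
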