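import Mathlib

set_option autoImplicit false

namespace Pool.Agent.Balls

/-- Euclidean 3-space. -/
abbrev E3 := EuclideanSpace ℝ (Fin 3)

/-- A subset of space is a (straight) line. -/
def IsLine (L : Set E3) : Prop :=
  ∃ P d : E3, d ≠ 0 ∧ L = {x | ∃ t : ℝ, x = P + t • d}

/-- The lines that are tangent to exactly four of the unit balls with centres in `B` and miss
every other ball of the family. -/
def freeTangents (B : Finset E3) : Set (Set E3) :=
  {L | IsLine L ∧ ∃ s ⊆ B, s.card = 4 ∧ (∀ c ∈ s, Metric.infDist c L = 1) ∧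
    ∀ c ∈ B, c ∉ s → 1 < Metric.infDist c L}

/-- The line through `P` with direction `d`. -/
def ln (P d : E3) : Set E3 := {x | ∃ t : ℝ, x = P + t • d}

open scoped RealInnerProductSpace

theorem infDist_ln (P d c : E3) (hd : ‖d‖ = 1) :
    Metric.infDist c (ln P d) ^ 2 = ‖c - P‖ ^ 2 - ⟪c - P, d⟫ ^ 2 := by
  have hdd : ⟪d, d⟫ = 1 := by rw [real_inner_self_eq_norm_sq, hd]; norm_num
  set s := ⟪c - P, d⟫ with hs
  set Q := P + s • d with hQ
  have hmem : Q ∈ ln P d := ⟨s, rfl⟩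
  have key : ∀ t : ℝ, dist c (P + t • d) ^ 2 = ‖c - P‖ ^ 2 - s ^ 2 + (t - s) ^ 2 := by
    intro t
    rw [dist_eq_norm, show c - (P + t • d) = (c - P) - t • d by abel, norm_sub_sq_real,
      inner_smul_right, norm_smul, hd, ← hs]
    rw [mul_one, Real.norm_eq_abs, sq_abs]
    ring
  have hle : Metric.infDist c (ln P d) ≤ dist c Q := Metric.infDist_le_dist_of_mem hmem
  have hge : dist c Q ≤ Metric.infDist c (ln P d) := by
    rw [Metric.infDist_eq_iInf]
    haveI : Nonempty (ln P d) := ⟨⟨Q, hmem⟩⟩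
    apply le_ciInf
    rintro ⟨y, t, rfl⟩
    have h1 := key t
    have h2 := key s
    rw [sub_self] at h2
    apply le_of_sq_le_sq _ dist_nonneg
    rw [hQ, h1, h2]
    nlinarith [sq_nonneg (t - s)]
  have heq : Metric.infDist c (ln P d) = dist c Q := le_antisymm hle hge
  rw [heq, key s]
  ring

theorem infDist_eq_one_iff (P d c : E3) (hd : ‖d‖ = 1) :
    Metric.infDist c (ln P d) = 1 ↔ ‖c - P‖ ^ 2 - ⟪c - P, d⟫ ^ 2 = 1 := by
  rw [← infDist_ln P d c hd]
  have h := Metric.infDist_nonneg (s := ln P d) (x := c)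
  constructor
  · intro h1; rw [h1]; norm_num
  · intro h1; nlinarith

theorem one_lt_infDist_iff (P d c : E3) (hd : ‖d‖ = 1) :
    1 < Metric.infDist c (ln P d) ↔ 1 < ‖c - P‖ ^ 2 - ⟪c - P, d⟫ ^ 2 := by
  rw [← infDist_ln P d c hd]
  have h := Metric.infDist_nonneg (s := ln P d) (x := c)
  constructor
  · intro h1; nlinarith
  · intro h1; nlinarith

/-- every line can be written with a unit direction and base point the foot of the perpendicular
from a given point -/
theorem IsLine.normal {L : Set E3} (h : IsLine L) (o : E3) :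
    ∃ P d : E3, ‖d‖ = 1 ∧ ⟪P - o, d⟫ = 0 ∧ L = ln P d := by
  obtain ⟨P, d, hd, rfl⟩ := h
  have hn : ‖d‖ ≠ 0 := norm_ne_zero_iff.2 hd
  set e := ‖d‖⁻¹ • d with he
  have hen : ‖e‖ = 1 := by rw [he, norm_smul, norm_inv, norm_norm, inv_mul_cancel₀ hn]
  have hee : ⟪e, e⟫ = 1 := by rw [real_inner_self_eq_norm_sq, hen]; norm_num
  have hde : d = ‖d‖ • e := by rw [he, smul_smul, mul_inv_cancel₀ hn, one_smul]
  refine ⟨P - ⟪P - o, e⟫ • e, e, hen, ?_, ?_⟩
  · rw [show P - ⟪P - o, e⟫ • e - o = (P - o) - ⟪P - o, e⟫ • e by abel, inner_sub_left,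
      inner_smul_left, hee]
    simp
  · ext x
    simp only [ln, Set.mem_setOf_eq]
    constructor
    · rintro ⟨t, rfl⟩
      refine ⟨t * ‖d‖ + ⟪P - o, e⟫, ?_⟩
      nth_rw 1 [hde]
      rw [smul_smul, add_smul]
      abel
    · rintro ⟨t, rfl⟩
      refine ⟨(t - ⟪P - o, e⟫) * ‖d‖⁻¹, ?_⟩
      rw [← smul_smul, ← he, sub_smul]
      abel

end Pool.Agent.Balls
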